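import Pool.Agent.H683.SC.PosStm
import Pool.Agent.H161.SC_COMP

/-! The state sum with all colors is the value of the subgraph component polynomial (helper720). -/

set_option autoImplicit false

namespace Pool.Agent.H720.SPZF

open Pool.Agent.H683.SC Pool.Agent.H683.MC Pool.Agent.NPC Pool.Agent.H633R2 Pool.Agent.H161.SCC

open Classical in
/-- the state sum of the graph -/
noncomputable def SX (M : List (List Bool)) (q : ℕ) (X : ℤ) : ℤ :=
  ∑ f : Fin M.length → Option (Fin q),
    if ∀ u v, (graphOf M).Adj u v → cmp (f u) (f v) then ∏ v, (if f v = none then 1 else X) else 0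

open Classical in
theorem prod_X {n q : ℕ} (X : ℤ) (f : Fin n → Option (Fin q)) :
    ∏ v, (if f v = none then 1 else X) = X ^ (Finset.univ.filter fun v => f v ≠ none).card := by
  have h1 : ∀ v, (if f v = none then 1 else X) = if f v ≠ none then X else 1 := by
    intro v
    by_cases h : f v = none <;> simp [h]
  rw [Finset.prod_congr rfl (fun v _ => h1 v), Finset.prod_ite, Finset.prod_const, Finset.prod_const_one,
    mul_one]

open Classical in
theorem SX_eq (M : List (List Bool)) (q : ℕ) (X : ℤ) : SX M q X =
    ∑ A : Finset (Fin M.length), X ^ A.card *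
      (q : ℤ) ^ Nat.card ((graphOf M).induce (A : Set (Fin M.length))).ConnectedComponent := by
  unfold SX
  rw [← Finset.sum_fiberwise (Finset.univ : Finset (Fin M.length → Option (Fin q)))
    (fun f => Finset.univ.filter fun v => f v ≠ none)]
  refine Finset.sum_congr rfl fun A _ => ?_
  have h1 := count_col (graphOf M) q A
  have h2 : (q : ℤ) ^ Nat.card ((graphOf M).induce (A : Set (Fin M.length))).ConnectedComponent =
      ((Finset.univ.filter fun f : Fin M.length → Option (Fin q) =>
      (Finset.univ.filter fun v => f v ≠ none) = A ∧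
        ∀ u v, (graphOf M).Adj u v → cmp (f u) (f v)).card : ℤ) := by
    rw [h1]
    push_cast
    rfl
  have h3 : ∀ f ∈ (Finset.univ.filter fun f : Fin M.length → Option (Fin q) =>
      (Finset.univ.filter fun v => f v ≠ none) = A),
      (if ∀ u v, (graphOf M).Adj u v → cmp (f u) (f v) then
        ∏ v, (if f v = none then 1 else X) else 0) =
      if ∀ u v, (graphOf M).Adj u v → cmp (f u) (f v) then X ^ A.card else 0 := by
    intro f hf
    rw [Finset.mem_filter] at hf
    rw [prod_X, hf.2]
  rw [h2, Finset.sum_congr rfl h3, ← Finset.sum_filter, Finset.filter_filter, Finset.sum_const,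
    nsmul_eq_mul, mul_comm]

theorem SX_val (M : List (List Bool)) (q : ℕ) (X : ℤ) : SX M q X =
    ∑ i ∈ Finset.range (M.length + 1),
      ∑ j ∈ Finset.range (M.length + 1), X ^ i * (q : ℤ) ^ j * (qco M i j : ℤ) := by
  classical
  rw [SX_eq]
  set n := M.length with hn
  set c : Finset (Fin n) → ℕ := fun A => Nat.card ((graphOf M).induce (A : Set (Fin n))).ConnectedComponent
    with hc
  have hmaps : ∀ A ∈ (Finset.univ : Finset (Finset (Fin n))),
      ((A.card, c A) : ℕ × ℕ) ∈ Finset.range (n + 1) ×ˢ Finset.range (n + 1) := by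
    intro A _
    have h1 : A.card ≤ n := by
      have := Finset.card_le_univ A
      rwa [Fintype.card_fin] at this
    have h2 : c A ≤ A.card := card_comp_le _ A
    rw [Finset.mem_product, Finset.mem_range, Finset.mem_range]
    constructor
    · show A.card < n + 1
      omega
    · show c A < n + 1
      omega
  rw [← Finset.sum_fiberwise_of_maps_to hmaps, Finset.sum_product]
  refine Finset.sum_congr rfl fun i _ => Finset.sum_congr rfl fun j _ => ?_
  have h3 : ∀ A ∈ Finset.univ.filter (fun A : Finset (Fin n) => ((A.card, c A) : ℕ × ℕ) = (i, j)),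
      X ^ A.card * (q : ℤ) ^ c A = X ^ i * (q : ℤ) ^ j := by
    intro A hA
    rw [Finset.mem_filter] at hA
    have h4 := hA.2
    rw [Prod.mk.injEq] at h4
    rw [h4.1, h4.2]
  rw [Finset.sum_congr rfl h3, Finset.sum_const, nsmul_eq_mul, mul_comm]
  congr 2
  unfold qco
  congr 1
  ext A
  rw [Finset.mem_filter, Finset.mem_filter, Prod.mk.injEq]

open Classical in
theorem Zt_SX {q : ℕ} (M : List (List Bool)) (t : KExp) (X : ℤ)
    (e : Fin M.length ≃ Fin t.labs.length)
    (he : ∀ u v, (graphOf M).Adj u v ↔ t.Adj (e u) (e v)) :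
    Zt (q := q) t (fun _ _ => True) X = SX M q X := by
  unfold Zt SX
  refine Fintype.sum_equiv (Equiv.arrowCongr e.symm (Equiv.refl _)) _ _ fun f => ?_
  have h1 : ∀ v, (Equiv.arrowCongr e.symm (Equiv.refl (Option (Fin q)))) f v = f (e v) := fun _ => rfl
  simp only [h1]
  have h2 : ∏ v, (if f (e v) = none then 1 else X) = ∏ v, (if f v = none then 1 else X) :=
    Equiv.prod_comp e fun v => if f v = none then 1 else X
  rw [h2]
  have key : ((∀ u v : Fin t.labs.length, t.Adj u v → Pool.Agent.H683.SC.cmp (f u) (f v)) ∧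
      (∀ (v : Fin t.labs.length) (c : Fin q), f v = some c → True)) ↔
      ∀ u v, (graphOf M).Adj u v → Pool.Agent.H683.SC.cmp (f (e u)) (f (e v)) := by
    constructor
    · rintro ⟨h3, _⟩ u v huv
      exact h3 _ _ ((he u v).1 huv)
    · intro h3
      refine ⟨fun u v huv => ?_, fun _ _ _ => trivial⟩
      have h4 := h3 (e.symm u) (e.symm v)
      rw [e.apply_symm_apply, e.apply_symm_apply] at h4
      apply h4
      rw [he, e.apply_symm_apply, e.apply_symm_apply]
      exact huv
  by_cases hA : ∀ u v, (graphOf M).Adj u v → Pool.Agent.H683.SC.cmp (f (e u)) (f (e v))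
  · rw [if_pos (key.2 hA), if_pos hA]
  · rw [if_neg (fun h => hA (key.1 h)), if_neg hA]

theorem ZF : S_ZF := by
  intro k q M t X h
  obtain ⟨_, e, he⟩ := h
  rw [Zt_SX M t X e he, SX_val]

end Pool.Agent.H720.SPZF
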