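import Pool.Agent.H235.Ti.SpecL
import Pool.Graph.R_pool_sql_team_seeded_63374d34.N789.QD.KF

set_option autoImplicit false

/-! `S_L7B` of project Ti (for helper235). -/

namespace Pool.Agent.H720.TiL7B

open MeasureTheory Set Filter Topology Complex
open Pool.Agent.R225.LP (gk)
open Pool.Agent.N275.QD (Rf Kf Gf Gr Hh S_KF)
open Pool.Agent.H235.Ti
open scoped Real ComplexConjugate

/-! ### Part A: the integrals over `t` -/

/-- the integrand over `t` -/
noncomputable def ht (κ v : ℝ) (j : ℕ) (U t : ℝ) : ℝ :=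
  Real.exp (-(κ ^ 2 * t)) * (Real.exp (-((U ^ 2 + v ^ 2) / (4 * t))) / t ^ (j + 1))

theorem pow_exp_le {c t : ℝ} (hc : 0 < c) (ht : 0 < t) (m : ℕ) :
    Real.exp (-(c / t)) / t ^ m ≤ m.factorial / c ^ m := by
  have h1 := Real.pow_div_factorial_le_exp (x := c / t) (by positivity) m
  rw [Real.exp_neg, div_le_div_iff₀ (by positivity) (by positivity)]
  rw [div_pow, div_div, div_le_iff₀ (by positivity)] at h1
  have h2 : (Real.exp (c / t))⁻¹ * c ^ m ≤ (Real.exp (c / t))⁻¹ *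
      (Real.exp (c / t) * (t ^ m * m.factorial)) :=
    mul_le_mul_of_nonneg_left h1 (by positivity)
  rw [inv_mul_cancel_left₀ (Real.exp_pos _).ne'] at h2
  linarith

theorem ht_le {κ v U₀ U t : ℝ} (hU₀ : 0 < U₀) (hU : U₀ ≤ U) (h0 : 0 < t) (j : ℕ) :
    |ht κ v j U t| ≤ ((j + 1).factorial / (U₀ ^ 2 / 4) ^ (j + 1)) * Real.exp (-(κ ^ 2 * t)) := by
  unfold ht
  rw [abs_of_nonneg (by positivity), mul_comm]
  refine mul_le_mul_of_nonneg_right ?_ (Real.exp_pos _).le
  refine le_trans ?_ (pow_exp_le (by positivity : 0 < U₀ ^ 2 / 4) h0 (j + 1))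
  refine div_le_div_of_nonneg_right (Real.exp_le_exp.2 (neg_le_neg ?_)) (by positivity)
  rw [div_div]
  refine div_le_div_of_nonneg_right ?_ (by positivity)
  nlinarith [sq_nonneg v]

theorem integrable_exp {κ : ℝ} (hκ : 0 < κ) :
    IntegrableOn (fun t => Real.exp (-(κ ^ 2 * t))) (Ioi 0) := by
  have := integrableOn_exp_mul_Ioi (a := -(κ ^ 2)) (by have := pow_pos hκ 2; linarith) 0
  simpa only [neg_mul] using this

theorem meas_ht (κ v : ℝ) (j : ℕ) (U : ℝ) :
    AEStronglyMeasurable (ht κ v j U) (volume.restrict (Ioi 0)) := by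
  refine Measurable.aestronglyMeasurable ?_
  unfold ht
  fun_prop

theorem integrable_ht {κ v U : ℝ} (hκ : 0 < κ) (hU : 0 < U) (j : ℕ) :
    IntegrableOn (ht κ v j U) (Ioi 0) := by
  refine Integrable.mono' ((integrable_exp hκ).const_mul
    ((j + 1).factorial / (U ^ 2 / 4) ^ (j + 1) : ℝ)) (meas_ht κ v j U) ?_
  filter_upwards [ae_restrict_mem measurableSet_Ioi] with t ht'
  rw [Real.norm_eq_abs]
  exact ht_le hU le_rfl ht' j

theorem hasDerivAt_ht (κ v : ℝ) (j : ℕ) (U t : ℝ) (h0 : 0 < t) :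
    HasDerivAt (fun U => ht κ v j U t) (-(U / 2) * ht κ v (j + 1) U t) U := by
  have h1 : HasDerivAt (fun U : ℝ => -((U ^ 2 + v ^ 2) / (4 * t))) (-((2 * U) / (4 * t))) U := by
    have := (((hasDerivAt_pow 2 U).add_const (v ^ 2)).div_const (4 * t)).fun_neg
    simpa using this
  have h2 := ((h1.exp.div_const (t ^ (j + 1))).const_mul (Real.exp (-(κ ^ 2 * t))))
  refine h2.congr_deriv ?_
  unfold ht
  rw [pow_succ t (j + 1)]
  field_simp
  ring

theorem hasDerivAt_T {κ v U : ℝ} (hκ : 0 < κ) (hU : 0 < U) (j : ℕ) :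
    HasDerivAt (fun U => ∫ t in Ioi (0 : ℝ), ht κ v j U t)
      (-(U / 2) * ∫ t in Ioi (0 : ℝ), ht κ v (j + 1) U t) U := by
  have := hasDerivAt_integral_of_dominated_loc_of_deriv_le (μ := volume.restrict (Ioi (0 : ℝ)))
    (F := fun U t => ht κ v j U t) (F' := fun U t => -(U / 2) * ht κ v (j + 1) U t) (x₀ := U)
    (s := Ioo (U / 2) (2 * U))
    (bound := fun t => U * (((j + 1 + 1).factorial / ((U / 2) ^ 2 / 4) ^ (j + 1 + 1)) *
      Real.exp (-(κ ^ 2 * t))))
    (Ioo_mem_nhds (by linarith) (by linarith))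
    (Eventually.of_forall fun U => meas_ht κ v j U) (integrable_ht hκ hU j)
    ((meas_ht κ v (j + 1) U).const_mul _) ?_ (((integrable_exp hκ).const_mul _).const_mul _) ?_
  · rw [integral_const_mul] at this
    exact this.2
  · filter_upwards [ae_restrict_mem measurableSet_Ioi] with t ht' x hx
    rw [Real.norm_eq_abs, abs_mul]
    refine mul_le_mul ?_ (ht_le (by linarith) hx.1.le ht' (j + 1)) (abs_nonneg _) hU.le
    rw [abs_neg, abs_of_pos (by linarith [hx.1])]
    linarith [hx.2]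
  · filter_upwards [ae_restrict_mem measurableSet_Ioi] with t ht' x hx
    exact hasDerivAt_ht κ v j x t ht'

/-! ### Part B: the integrals over `s` -/

/-- the integrand over `s` -/
noncomputable def hs (κ v : ℝ) (j : ℕ) (U s : ℝ) : ℝ :=
  Real.cosh s ^ j * Real.exp (-(κ * U * Real.cosh s)) * Real.cos (κ * v * Real.sinh s)

theorem cosh_pow_le {c : ℝ} (hc : 0 < c) (j : ℕ) (s : ℝ) :
    Real.cosh s ^ j * Real.exp (-(c * Real.cosh s)) ≤
      (j.factorial / (c / 2) ^ j) * Real.exp (-(c / 2 * Real.cosh s)) := by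
  have h1 := Real.pow_div_factorial_le_exp (x := c / 2 * Real.cosh s)
    (by have := Real.cosh_pos s; positivity) j
  have h2 : Real.cosh s ^ j ≤ (j.factorial / (c / 2) ^ j) * Real.exp (c / 2 * Real.cosh s) := by
    rw [div_le_iff₀ (by positivity), mul_pow] at h1
    rw [div_mul_eq_mul_div, le_div_iff₀ (by positivity)]
    linarith
  have h3 : Real.exp (-(c * Real.cosh s)) =
      Real.exp (-(c / 2 * Real.cosh s)) * Real.exp (-(c / 2 * Real.cosh s)) := by
    rw [← Real.exp_add]; congr 1; ring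
  rw [h3]
  calc Real.cosh s ^ j * (Real.exp (-(c / 2 * Real.cosh s)) * Real.exp (-(c / 2 * Real.cosh s)))
      ≤ (j.factorial / (c / 2) ^ j) * Real.exp (c / 2 * Real.cosh s) *
        (Real.exp (-(c / 2 * Real.cosh s)) * Real.exp (-(c / 2 * Real.cosh s))) :=
        mul_le_mul_of_nonneg_right h2 (by positivity)
    _ = (j.factorial / (c / 2) ^ j) * (Real.exp (c / 2 * Real.cosh s) *
        Real.exp (-(c / 2 * Real.cosh s))) * Real.exp (-(c / 2 * Real.cosh s)) := by ring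
    _ = _ := by rw [← Real.exp_add, add_neg_cancel, Real.exp_zero, mul_one]

theorem hs_le {κ v U₀ U s : ℝ} (hκ : 0 < κ) (hU₀ : 0 < U₀) (hU : U₀ ≤ U) (j : ℕ) :
    |hs κ v j U s| ≤ (j.factorial / (κ * U₀ / 2) ^ j) * Real.exp (-(κ * U₀ / 2 * Real.cosh s)) := by
  have hc := Real.cosh_pos s
  unfold hs
  rw [abs_mul, abs_of_nonneg (by positivity : 0 ≤ Real.cosh s ^ j * Real.exp (-(κ * U * Real.cosh s)))]
  refine le_trans (mul_le_of_le_one_right (by positivity) (Real.abs_cos_le_one _)) ?_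
  refine le_trans ?_ (cosh_pow_le (by positivity : 0 < κ * U₀) j s)
  refine mul_le_mul_of_nonneg_left (Real.exp_le_exp.2 (neg_le_neg ?_)) (by positivity)
  exact mul_le_mul_of_nonneg_right (mul_le_mul_of_nonneg_left hU hκ.le) hc.le

theorem meas_hs (κ v : ℝ) (j : ℕ) (U : ℝ) :
    AEStronglyMeasurable (hs κ v j U) (volume.restrict (Ioi 0)) := by
  refine Continuous.aestronglyMeasurable ?_
  unfold hs
  fun_prop

theorem integrable_cosh {c : ℝ} (hc : 0 < c) :
    IntegrableOn (fun s => Real.exp (-(c * Real.cosh s))) (Ioi 0) :=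
  (Pool.Agent.N789.KF.integrable_exp_cosh hc).integrableOn

theorem integrable_hs {κ v U : ℝ} (hκ : 0 < κ) (hU : 0 < U) (j : ℕ) :
    IntegrableOn (hs κ v j U) (Ioi 0) := by
  refine Integrable.mono' ((integrable_cosh (by positivity : 0 < κ * U / 2)).const_mul
    (j.factorial / (κ * U / 2) ^ j : ℝ)) (meas_hs κ v j U) ?_
  filter_upwards with s
  rw [Real.norm_eq_abs]
  exact hs_le hκ hU le_rfl j

theorem hasDerivAt_hs (κ v : ℝ) (j : ℕ) (U s : ℝ) :
    HasDerivAt (fun U => hs κ v j U s) (-κ * hs κ v (j + 1) U s) U := by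
  have h1 : HasDerivAt (fun U : ℝ => -(κ * U * Real.cosh s)) (-(κ * Real.cosh s)) U := by
    have := ((((hasDerivAt_id U).const_mul κ).mul_const (Real.cosh s))).fun_neg
    simpa using this
  have h2 := ((h1.exp.const_mul (Real.cosh s ^ j)).mul_const (Real.cos (κ * v * Real.sinh s)))
  refine h2.congr_deriv ?_
  unfold hs
  rw [pow_succ]
  ring

theorem hasDerivAt_S {κ v U : ℝ} (hκ : 0 < κ) (hU : 0 < U) (j : ℕ) :
    HasDerivAt (fun U => ∫ s in Ioi (0 : ℝ), hs κ v j U s)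
      (-κ * ∫ s in Ioi (0 : ℝ), hs κ v (j + 1) U s) U := by
  have := hasDerivAt_integral_of_dominated_loc_of_deriv_le (μ := volume.restrict (Ioi (0 : ℝ)))
    (F := fun U s => hs κ v j U s) (F' := fun U s => -κ * hs κ v (j + 1) U s) (x₀ := U)
    (s := Ioi (U / 2))
    (bound := fun s => κ * (((j + 1).factorial / (κ * (U / 2) / 2) ^ (j + 1)) *
      Real.exp (-(κ * (U / 2) / 2 * Real.cosh s))))
    (Ioi_mem_nhds (by linarith))
    (Eventually.of_forall fun U => meas_hs κ v j U) (integrable_hs hκ hU j)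
    ((meas_hs κ v (j + 1) U).const_mul _) ?_
    (((integrable_cosh (by positivity : 0 < κ * (U / 2) / 2)).const_mul _).const_mul _) ?_
  · rw [integral_const_mul] at this
    exact this.2
  · filter_upwards with s x hx
    rw [Real.norm_eq_abs, abs_mul, abs_neg, abs_of_pos hκ]
    exact mul_le_mul_of_nonneg_left (hs_le hκ (by linarith) (le_of_lt hx) (j + 1)) hκ.le
  · filter_upwards with s x hx
    exact hasDerivAt_hs κ v j x s

/-! ### Part C: the Laplace transform of the Gaussian -/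

theorem image_exp {c : ℝ} (hc : 0 < c) : (fun v : ℝ => c * Real.exp v) '' univ = Ioi 0 := by
  ext t
  constructor
  · rintro ⟨v, -, rfl⟩
    exact mul_pos hc (Real.exp_pos v)
  · intro ht'
    have h0 : 0 < t := ht'
    refine ⟨Real.log (t / c), mem_univ _, ?_⟩
    simp only
    rw [Real.exp_log (by positivity)]
    field_simp

theorem laplace_gauss {κ r : ℝ} (hκ : 0 < κ) (hr : 0 < r) :
    ∫ t in Ioi (0 : ℝ), Real.exp (-(κ ^ 2 * t)) * (Real.exp (-(r ^ 2 / (4 * t))) / t) =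
      2 * Kf 0 (κ * r) := by
  have hc : 0 < r / (2 * κ) := by positivity
  rw [← image_exp hc, integral_image_eq_integral_abs_deriv_smul (f' := fun v => r / (2 * κ) * Real.exp v)
    MeasurableSet.univ (fun v _ => ((Real.hasDerivAt_exp v).const_mul _).hasDerivWithinAt)]
  · rw [setIntegral_univ]
    have h1 : ∀ v : ℝ, |r / (2 * κ) * Real.exp v| • (Real.exp (-(κ ^ 2 * (r / (2 * κ) * Real.exp v))) *
        (Real.exp (-(r ^ 2 / (4 * (r / (2 * κ) * Real.exp v)))) / (r / (2 * κ) * Real.exp v))) =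
        Real.exp (-(κ * r * Real.cosh |v|)) := by
      intro v
      have he := Real.exp_pos v
      rw [abs_of_pos (by positivity), smul_eq_mul, Real.cosh_abs]
      have h2 : Real.exp (-(κ ^ 2 * (r / (2 * κ) * Real.exp v))) *
          Real.exp (-(r ^ 2 / (4 * (r / (2 * κ) * Real.exp v)))) =
          Real.exp (-(κ * r * Real.cosh v)) := by
        rw [← Real.exp_add, Real.cosh_eq, Real.exp_neg v]
        congr 1
        field_simp
        ring
      rw [← h2]
      field_simp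
    simp only [h1]
    rw [integral_comp_abs (f := fun v => Real.exp (-(κ * r * Real.cosh v)))]
    unfold Kf
    simp
  · intro a _ b _ hab
    simp only at hab
    exact Real.exp_injective (mul_left_cancel₀ hc.ne' hab)

theorem T0_eq (hL3 : S_L3) {κ v U : ℝ} (hκ : 0 < κ) (hU : 0 < U) :
    ∫ t in Ioi (0 : ℝ), ht κ v 0 U t = 2 * ∫ s in Ioi (0 : ℝ), hs κ v 0 U s := by
  have h1 := (hL3 0 κ ((U : ℂ) + (v : ℂ) * I) hκ (by simpa using hU)).2.2
  have hre : ((U : ℂ) + (v : ℂ) * I).re = U := by simp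
  have him : ((U : ℂ) + (v : ℂ) * I).im = v := by simp
  have hn : ‖(U : ℂ) + (v : ℂ) * I‖ ^ 2 = U ^ 2 + v ^ 2 := by
    rw [Complex.sq_norm, Complex.normSq_apply, hre, him]; ring
  have hpos : 0 < ‖(U : ℂ) + (v : ℂ) * I‖ := by
    rw [norm_pos_iff]
    intro h
    rw [h] at hre
    simp at hre
    linarith
  rw [hre, him] at h1
  simp only [mul_zero, Real.cosh_zero, mul_one, zero_mul, Real.cos_zero] at h1
  have h2 := laplace_gauss hκ hpos
  rw [h1] at h2
  simp only [ht, hs, zero_add, pow_one, pow_zero, one_mul]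
  rw [← hn]
  exact h2

/-! ### Part D: the derivatives -/

theorem T1_eq (hL3 : S_L3) {κ v U : ℝ} (hκ : 0 < κ) (hU : 0 < U) :
    U / 2 * ∫ t in Ioi (0 : ℝ), ht κ v 1 U t = 2 * κ * ∫ s in Ioi (0 : ℝ), hs κ v 1 U s := by
  have h1 := hasDerivAt_T (v := v) hκ hU 0
  have h2 := (hasDerivAt_S (v := v) hκ hU 0).const_mul 2
  have h3 : (fun U => ∫ t in Ioi (0 : ℝ), ht κ v 0 U t) =ᶠ[𝓝 U]
      fun U => 2 * ∫ s in Ioi (0 : ℝ), hs κ v 0 U s := by
    filter_upwards [Ioi_mem_nhds hU] with x hx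
    exact T0_eq hL3 hκ hx
  have h4 := (h2.congr_of_eventuallyEq h3).unique h1
  simp only [zero_add] at h4
  linarith

theorem T2_eq (hL3 : S_L3) {κ v U : ℝ} (hκ : 0 < κ) (hU : 0 < U) :
    -(1 / 2) * (∫ t in Ioi (0 : ℝ), ht κ v 1 U t) + U ^ 2 / 4 * ∫ t in Ioi (0 : ℝ), ht κ v 2 U t =
      2 * κ ^ 2 * ∫ s in Ioi (0 : ℝ), hs κ v 2 U s := by
  have h1 := ((hasDerivAt_id U).div_const 2).mul (hasDerivAt_T (v := v) hκ hU 1)
  have h2 := (hasDerivAt_S (v := v) hκ hU 1).const_mul (2 * κ)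
  have h3 : (fun U => U / 2 * ∫ t in Ioi (0 : ℝ), ht κ v 1 U t) =ᶠ[𝓝 U]
      fun U => 2 * κ * ∫ s in Ioi (0 : ℝ), hs κ v 1 U s := by
    filter_upwards [Ioi_mem_nhds hU] with x hx
    exact T1_eq hL3 hκ hx
  have h4 := (h2.congr_of_eventuallyEq h3).unique h1
  simp only [id_eq, Nat.reduceAdd] at h4
  linarith

/-! ### Part E: the Gaussian kernel as a function of `x + x'` -/

/-- the kernel as a function of `U` -/
noncomputable def G0 (v t U : ℝ) : ℝ := Real.exp (-((U ^ 2 + v ^ 2) / (4 * t))) / (4 * π * t)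

theorem gk_eq (t : ℝ) (z : ℂ) : gk t z = G0 z.im t z.re := by
  unfold gk G0
  rw [Complex.sq_norm, Complex.normSq_apply]
  congr 4
  ring

theorem hasDerivAt_G0 (v t U : ℝ) (h0 : 0 < t) :
    HasDerivAt (G0 v t) (-(U / (2 * t)) * G0 v t U) U := by
  have h1 : HasDerivAt (fun U : ℝ => -((U ^ 2 + v ^ 2) / (4 * t))) (-((2 * U) / (4 * t))) U := by
    have := (((hasDerivAt_pow 2 U).add_const (v ^ 2)).div_const (4 * t)).fun_neg
    simpa using this
  have h2 := h1.exp.div_const (4 * π * t)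
  refine h2.congr_deriv ?_
  unfold G0
  have := Real.pi_pos
  field_simp
  ring

theorem hasDerivAt_G1 (v t U : ℝ) (h0 : 0 < t) :
    HasDerivAt (fun U => -(U / (2 * t)) * G0 v t U)
      ((-(1 / (2 * t)) + U ^ 2 / (4 * t ^ 2)) * G0 v t U) U := by
  have h1 : HasDerivAt (fun U : ℝ => -(U / (2 * t))) (-(1 / (2 * t))) U := by
    have := ((hasDerivAt_id U).div_const (2 * t)).fun_neg
    simpa using this
  refine (h1.mul (hasDerivAt_G0 v t U h0)).congr_deriv ?_
  field_simp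
  ring

/-- the commutator for a kernel depending on `x + x'` -/
theorem CC_eq (d : ℝ) (G : ℂ → ℂ → ℝ) (z w : ℂ) (φ φ1 φ2 : ℝ → ℝ)
    (hG : ∀ x x' : ℝ, G ((x : ℂ) + (z.im : ℂ) * I) ((x' : ℂ) + (w.im : ℂ) * I) = φ (x + x'))
    (h1 : ∀ p, HasDerivAt φ (φ1 p) p) (h2 : ∀ p, HasDerivAt φ1 (φ2 p) p) :
    CC d G z w = X2 d z.re * (X2 d w.re * φ (z.re + w.re) + 2 * X1 d w.re * φ1 (z.re + w.re)) +
      2 * X1 d z.re * (X2 d w.re * φ1 (z.re + w.re) + 2 * X1 d w.re * φ2 (z.re + w.re)) := by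
  unfold CC
  simp only [hG]
  have e1 : ∀ x : ℝ, Cx d (fun x' => φ (x + x')) w.re =
      X2 d w.re * φ (x + w.re) + 2 * X1 d w.re * φ1 (x + w.re) := by
    intro x
    unfold Cx
    have : HasDerivAt (fun x' => φ (x + x')) (φ1 (x + w.re)) w.re := by
      have := (h1 (x + w.re)).comp_const_add x w.re
      exact this
    rw [this.deriv]
  simp only [e1]
  unfold Cx
  have e2 : HasDerivAt (fun x => X2 d w.re * φ (x + w.re) + 2 * X1 d w.re * φ1 (x + w.re))
      (X2 d w.re * φ1 (z.re + w.re) + 2 * X1 d w.re * φ2 (z.re + w.re)) z.re :=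
    ((((h1 (z.re + w.re)).comp_add_const z.re w.re)).const_mul _).add
      ((((h2 (z.re + w.re)).comp_add_const z.re w.re)).const_mul _)
  rw [e2.deriv]

/-! ### Part F: assembly -/

/-- the combination of the derivatives of the Gaussian -/
noncomputable def CV (a b a' b' : ℝ) (d v t p : ℝ) : ℝ :=
  a * (a' * G0 v t (p - 2 * d) + 2 * b' * (-((p - 2 * d) / (2 * t)) * G0 v t (p - 2 * d))) +
    2 * b * (a' * (-((p - 2 * d) / (2 * t)) * G0 v t (p - 2 * d)) +
      2 * b' * ((-(1 / (2 * t)) + (p - 2 * d) ^ 2 / (4 * t ^ 2)) * G0 v t (p - 2 * d)))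

theorem CV_eq (a b a' b' : ℝ) (d κ v t p : ℝ) (h0 : 0 < t) :
    Real.exp (-(κ ^ 2 * t)) * CV a b a' b' d v t p =
      1 / (4 * π) * (a * a' * ht κ v 0 (2 * d - p) t +
        2 * (a * b' + b * a') * ((2 * d - p) / 2 * ht κ v 1 (2 * d - p) t) +
        4 * b * b' * (-(1 / 2) * ht κ v 1 (2 * d - p) t +
          (2 * d - p) ^ 2 / 4 * ht κ v 2 (2 * d - p) t)) := by
  have hpi := Real.pi_pos
  unfold CV ht G0
  have e : (p - 2 * d) ^ 2 = (2 * d - p) ^ 2 := by ring
  rw [e]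
  generalize Real.exp (-(κ ^ 2 * t)) = E1
  generalize Real.exp (-(((2 * d - p) ^ 2 + v ^ 2) / (4 * t))) = E2
  field_simp
  ring

theorem LTv (hL3 : S_L3) (a b a' b' : ℝ) {d κ v p : ℝ} (hκ : 0 < κ) (hp : 0 < 2 * d - p) :
    IntegrableOn (fun t => Real.exp (-(κ ^ 2 * t)) * CV a b a' b' d v t p) (Ioi 0) ∧
    IntegrableOn (fun s => (a + 2 * κ * Real.cosh s * b) * (a' + 2 * κ * Real.cosh s * b') *
        (Real.exp (-(κ * (2 * d - p) * Real.cosh s)) * Real.cos (κ * v * Real.sinh s))) (Ioi 0) ∧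
    ∫ t in Ioi (0 : ℝ), Real.exp (-(κ ^ 2 * t)) * CV a b a' b' d v t p =
      1 / (2 * π) * ∫ s in Ioi (0 : ℝ), (a + 2 * κ * Real.cosh s * b) * (a' + 2 * κ * Real.cosh s * b') *
        (Real.exp (-(κ * (2 * d - p) * Real.cosh s)) * Real.cos (κ * v * Real.sinh s)) := by
  have hpi := Real.pi_pos
  set U := 2 * d - p with hU
  have i0 := integrable_ht (v := v) hκ hp 0
  have i1 := integrable_ht (v := v) hκ hp 1
  have i2 := integrable_ht (v := v) hκ hp 2
  have k0 := integrable_hs (v := v) hκ hp 0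
  have k1 := integrable_hs (v := v) hκ hp 1
  have k2 := integrable_hs (v := v) hκ hp 2
  have hI : IntegrableOn (fun t => 1 / (4 * π) * (a * a' * ht κ v 0 U t +
        2 * (a * b' + b * a') * (U / 2 * ht κ v 1 U t) +
        4 * b * b' * (-(1 / 2) * ht κ v 1 U t + U ^ 2 / 4 * ht κ v 2 U t))) (Ioi 0) :=
    (((i0.const_mul _).add ((i1.const_mul _).const_mul _)).add
      (((i1.const_mul _).add (i2.const_mul _)).const_mul _)).const_mul _
  have hE : EqOn (fun t => 1 / (4 * π) * (a * a' * ht κ v 0 U t +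
        2 * (a * b' + b * a') * (U / 2 * ht κ v 1 U t) +
        4 * b * b' * (-(1 / 2) * ht κ v 1 U t + U ^ 2 / 4 * ht κ v 2 U t)))
      (fun t => Real.exp (-(κ ^ 2 * t)) * CV a b a' b' d v t p) (Ioi 0) := by
    intro t ht'
    exact (CV_eq a b a' b' d κ v t p ht').symm
  have hS : (fun s => (a + 2 * κ * Real.cosh s * b) * (a' + 2 * κ * Real.cosh s * b') *
        (Real.exp (-(κ * U * Real.cosh s)) * Real.cos (κ * v * Real.sinh s))) =
      fun s => a * a' * hs κ v 0 U s + 2 * (a * b' + b * a') * κ * hs κ v 1 U s +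
        4 * b * b' * κ ^ 2 * hs κ v 2 U s := by
    funext s
    unfold hs
    ring
  refine ⟨hI.congr_fun hE measurableSet_Ioi, ?_, ?_⟩
  · rw [hS]
    exact ((k0.const_mul _).add (k1.const_mul _)).add (k2.const_mul _)
  · have j0 : IntegrableOn (fun t => a * a' * ht κ v 0 U t) (Ioi 0) := i0.const_mul _
    have j1 : IntegrableOn (fun t => 2 * (a * b' + b * a') * (U / 2 * ht κ v 1 U t)) (Ioi 0) :=
      (i1.const_mul _).const_mul _
    have j01 : IntegrableOn (fun t => a * a' * ht κ v 0 U t +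
        2 * (a * b' + b * a') * (U / 2 * ht κ v 1 U t)) (Ioi 0) := j0.add j1
    have j2a : IntegrableOn (fun t => -(1 / 2) * ht κ v 1 U t) (Ioi 0) := i1.const_mul _
    have j2b : IntegrableOn (fun t => U ^ 2 / 4 * ht κ v 2 U t) (Ioi 0) := i2.const_mul _
    have j2 : IntegrableOn (fun t => 4 * b * b' * (-(1 / 2) * ht κ v 1 U t +
        U ^ 2 / 4 * ht κ v 2 U t)) (Ioi 0) := (j2a.add j2b).const_mul _
    have l0 : IntegrableOn (fun s => a * a' * hs κ v 0 U s) (Ioi 0) := k0.const_mul _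
    have l1 : IntegrableOn (fun s => 2 * (a * b' + b * a') * κ * hs κ v 1 U s) (Ioi 0) :=
      k1.const_mul _
    have l01 : IntegrableOn (fun s => a * a' * hs κ v 0 U s +
        2 * (a * b' + b * a') * κ * hs κ v 1 U s) (Ioi 0) := l0.add l1
    have l2 : IntegrableOn (fun s => 4 * b * b' * κ ^ 2 * hs κ v 2 U s) (Ioi 0) := k2.const_mul _
    rw [← setIntegral_congr_fun measurableSet_Ioi hE, hS]
    rw [integral_const_mul, integral_add j01 j2, integral_add j0 j1,
      integral_const_mul, integral_const_mul, integral_const_mul, integral_const_mul,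
      integral_add j2a j2b, integral_const_mul, integral_const_mul,
      T0_eq hL3 hκ hp, T1_eq hL3 hκ hp]
    rw [T2_eq (v := v) hL3 hκ hp, integral_add l01 l2, integral_add l0 l1, integral_const_mul, integral_const_mul,
      integral_const_mul]
    field_simp
    ring

theorem CC_G0 (d v t : ℝ) (h0 : 0 < t) (G : ℂ → ℂ → ℝ) (z w : ℂ)
    (hG : ∀ x x' : ℝ, G ((x : ℂ) + (z.im : ℂ) * I) ((x' : ℂ) + (w.im : ℂ) * I) =
      G0 v t (x + x' - 2 * d)) :
    CC d G z w = CV (X2 d z.re) (X1 d z.re) (X2 d w.re) (X1 d w.re) d v t (z.re + w.re) := by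
  rw [CC_eq d G z w (fun p => G0 v t (p - 2 * d))
    (fun p => -((p - 2 * d) / (2 * t)) * G0 v t (p - 2 * d))
    (fun p => (-(1 / (2 * t)) + (p - 2 * d) ^ 2 / (4 * t ^ 2)) * G0 v t (p - 2 * d)) hG
    (fun p => (hasDerivAt_G0 v t (p - 2 * d) h0).comp_sub_const p (2 * d))
    (fun p => (hasDerivAt_G1 v t (p - 2 * d) h0).comp_sub_const p (2 * d))]
  rfl

theorem CC_sub (d v v' t : ℝ) (h0 : 0 < t) (G : ℂ → ℂ → ℝ) (z w : ℂ)
    (hG : ∀ x x' : ℝ, G ((x : ℂ) + (z.im : ℂ) * I) ((x' : ℂ) + (w.im : ℂ) * I) =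
      G0 v t (x + x' - 2 * d) - G0 v' t (x + x' - 2 * d)) :
    CC d G z w = CV (X2 d z.re) (X1 d z.re) (X2 d w.re) (X1 d w.re) d v t (z.re + w.re) -
      CV (X2 d z.re) (X1 d z.re) (X2 d w.re) (X1 d w.re) d v' t (z.re + w.re) := by
  rw [CC_eq d G z w (fun p => G0 v t (p - 2 * d) - G0 v' t (p - 2 * d))
    (fun p => -((p - 2 * d) / (2 * t)) * G0 v t (p - 2 * d) -
      -((p - 2 * d) / (2 * t)) * G0 v' t (p - 2 * d))
    (fun p => (-(1 / (2 * t)) + (p - 2 * d) ^ 2 / (4 * t ^ 2)) * G0 v t (p - 2 * d) -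
      (-(1 / (2 * t)) + (p - 2 * d) ^ 2 / (4 * t ^ 2)) * G0 v' t (p - 2 * d)) hG
    (fun p => ((hasDerivAt_G0 v t (p - 2 * d) h0).comp_sub_const p (2 * d)).sub
      ((hasDerivAt_G0 v' t (p - 2 * d) h0).comp_sub_const p (2 * d)))
    (fun p => ((hasDerivAt_G1 v t (p - 2 * d) h0).comp_sub_const p (2 * d)).sub
      ((hasDerivAt_G1 v' t (p - 2 * d) h0).comp_sub_const p (2 * d)))]
  unfold CV
  ring

theorem GA_eq (d t : ℝ) (z w : ℂ) (x x' : ℝ) :
    GA d t ((x : ℂ) + (z.im : ℂ) * I) ((x' : ℂ) + (w.im : ℂ) * I) =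
      G0 (z.im - w.im) t (x + x' - 2 * d) := by
  unfold GA
  rw [gk_eq]
  congr 1
  · simp
  · simp
    ring

theorem GR_eq (d t : ℝ) (z w : ℂ) (x x' : ℝ) :
    GR d t ((x : ℂ) + (z.im : ℂ) * I) ((x' : ℂ) + (w.im : ℂ) * I) =
      G0 (z.im - w.im) t (x + x' - 2 * d) - G0 (z.im + w.im) t (x + x' - 2 * d) := by
  unfold GR
  rw [gk_eq, gk_eq]
  congr 1
  · congr 1
    · simp
    · simp
      ring
  · congr 1
    · simp
    · simp
      ring

theorem l7b (hL3 : Pool.Agent.H235.Ti.S_L3) : Pool.Agent.H235.Ti.S_L7B := by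
  intro d hd κ η₀ z w hκ hz hw
  have hpi := Real.pi_pos
  have hp : 0 < 2 * d - (z.re + w.re) := by
    have h1 := hz.2.1
    have h2 := hw.2.1
    linarith
  obtain ⟨m1, m2, m3⟩ := LTv hL3 (X2 d z.re) (X1 d z.re) (X2 d w.re) (X1 d w.re)
    (v := z.im - w.im) hκ hp
  obtain ⟨p1, p2, p3⟩ := LTv hL3 (X2 d z.re) (X1 d z.re) (X2 d w.re) (X1 d w.re)
    (v := z.im + w.im) hκ hp
  have eA : EqOn (fun t => Real.exp (-(κ ^ 2 * t)) *
      CV (X2 d z.re) (X1 d z.re) (X2 d w.re) (X1 d w.re) d (z.im - w.im) t (z.re + w.re))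
      (fun t => Real.exp (-(κ ^ 2 * t)) * CC d (GA d t) z w) (Ioi 0) := by
    intro t ht'
    simp only
    rw [CC_G0 d (z.im - w.im) t ht' (GA d t) z w (GA_eq d t z w)]
  have eR : EqOn (fun t => Real.exp (-(κ ^ 2 * t)) *
      CV (X2 d z.re) (X1 d z.re) (X2 d w.re) (X1 d w.re) d (z.im - w.im) t (z.re + w.re) -
      Real.exp (-(κ ^ 2 * t)) *
      CV (X2 d z.re) (X1 d z.re) (X2 d w.re) (X1 d w.re) d (z.im + w.im) t (z.re + w.re))
      (fun t => Real.exp (-(κ ^ 2 * t)) * CC d (GR d t) z w) (Ioi 0) := by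
    intro t ht'
    simp only
    rw [CC_sub d (z.im - w.im) (z.im + w.im) t ht' (GR d t) z w (GR_eq d t z w)]
    ring
  have hexp : ∀ s : ℝ, Real.exp (-(κ * (2 * d - (z.re + w.re)) * Real.cosh s)) =
      Real.exp (-(κ * (d - z.re) * Real.cosh s)) * Real.exp (-(κ * (d - w.re) * Real.cosh s)) := by
    intro s
    rw [← Real.exp_add]
    congr 1
    ring
  have hcm : ∀ s : ℝ, Real.cos (κ * (z.im - w.im) * Real.sinh s) =
      Real.cos (κ * z.im * Real.sinh s) * Real.cos (κ * w.im * Real.sinh s) +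
      Real.sin (κ * z.im * Real.sinh s) * Real.sin (κ * w.im * Real.sinh s) := by
    intro s
    rw [← Real.cos_sub]
    congr 1
    ring
  have hcp : ∀ s : ℝ, Real.cos (κ * (z.im + w.im) * Real.sinh s) =
      Real.cos (κ * z.im * Real.sinh s) * Real.cos (κ * w.im * Real.sinh s) -
      Real.sin (κ * z.im * Real.sinh s) * Real.sin (κ * w.im * Real.sinh s) := by
    intro s
    rw [← Real.cos_add]
    congr 1
    ring
  refine ⟨(m1.sub p1).congr_fun eR measurableSet_Ioi, m1.congr_fun eA measurableSet_Ioi, ?_, ?_⟩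
  · rw [← setIntegral_congr_fun measurableSet_Ioi eR, integral_sub m1 p1, m3, p3, ← mul_sub,
      ← integral_sub m2 p2]
    have e2 : (fun s => (X2 d z.re + 2 * κ * Real.cosh s * X1 d z.re) *
          (X2 d w.re + 2 * κ * Real.cosh s * X1 d w.re) *
          (Real.exp (-(κ * (2 * d - (z.re + w.re)) * Real.cosh s)) *
            Real.cos (κ * (z.im - w.im) * Real.sinh s)) -
        (X2 d z.re + 2 * κ * Real.cosh s * X1 d z.re) *
          (X2 d w.re + 2 * κ * Real.cosh s * X1 d w.re) *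
          (Real.exp (-(κ * (2 * d - (z.re + w.re)) * Real.cosh s)) *
            Real.cos (κ * (z.im + w.im) * Real.sinh s))) =
        fun s => 2 * (ms d κ s z * ms d κ s w) := by
      funext s
      rw [hexp, hcm, hcp]
      unfold ms
      ring
    rw [e2, integral_const_mul]
    field_simp
  · rw [← setIntegral_congr_fun measurableSet_Ioi eA, m3]
    congr 2
    funext s
    rw [hexp, hcm]
    unfold ms mc
    ring

end Pool.Agent.H720.TiL7B
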